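import Mathlib
import Pool.Agent.N70.AW.Stm

/-!
Project AW (helper70), leaf EMB (helper478): a perfect group in a symmetric group, with even action on the cosets.
-/

set_option autoImplicit false

namespace Pool.Agent.N478.AW

open Equiv

/-- the sign of a fixed point free involution of a set whose cardinality is a multiple of four -/
theorem sign_involution {X : Type*} [Fintype X] [DecidableEq X] (h4 : 4 ∣ Fintype.card X) (σ : Perm X)
    (h2 : σ ^ 2 = 1) (hfix : ∀ x, σ x ≠ x) : Perm.sign σ = 1 := by
  have hsupp : σ.support = Finset.univ := by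
    ext x
    simp [hfix x]
  have hcard : σ.cycleType.sum = Fintype.card X := by
    rw [Perm.sum_cycleType, hsupp, Finset.card_univ]
  have hrep : σ.cycleType = Multiset.replicate (Multiset.card σ.cycleType) 2 := by
    rw [Multiset.eq_replicate]
    refine ⟨rfl, fun b hb => ?_⟩
    have h1 : b ∣ orderOf σ := Perm.dvd_of_mem_cycleType hb
    have h3 : orderOf σ ∣ 2 := orderOf_dvd_of_pow_eq_one h2
    have h5 : b ≤ 2 := Nat.le_of_dvd (by norm_num) (h1.trans h3)
    have h6 : 2 ≤ b := Perm.two_le_of_mem_cycleType hb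
    omega
  have hsum : σ.cycleType.sum = Multiset.card σ.cycleType * 2 := by
    conv_lhs => rw [hrep]
    rw [Multiset.sum_replicate, smul_eq_mul]
  rw [Perm.sign_of_cycleType]
  have hev : Even (σ.cycleType.sum + Multiset.card σ.cycleType) := by
    obtain ⟨c, hc⟩ := h4
    rw [Nat.even_iff]
    omega
  exact hev.neg_one_pow

theorem four_dvd_index {N n m : ℕ} (hN : 0 < N) (hn : N + 4 ≤ n) (h : m * N = n.factorial) : 4 ∣ m := by
  obtain ⟨c, hc⟩ := Nat.factorial_mul_factorial_dvd_factorial (show N ≤ n by omega)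
  obtain ⟨c', hc'⟩ : (4 : ℕ).factorial ∣ (n - N).factorial := Nat.factorial_dvd_factorial (by omega)
  obtain ⟨N', rfl⟩ : ∃ N', N = N' + 1 := ⟨N - 1, by omega⟩
  have h1 : m * (N' + 1) = (N'.factorial * (24 * c') * c) * (N' + 1) := by
    rw [h, hc, hc', Nat.factorial_succ]
    have : (4 : ℕ).factorial = 24 := rfl
    rw [this]
    ring
  have h2 := Nat.eq_of_mul_eq_mul_right (Nat.succ_pos N') h1
  rw [h2]
  exact ⟨N'.factorial * (6 * c') * c, by ring⟩

theorem emb : Pool.Agent.N70.AW.St_emb := by
  intro G _ _ hG n₀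
  classical
  have := Fintype.ofFinite G
  obtain ⟨N, hNdef⟩ : ∃ N, N = Fintype.card G := ⟨_, rfl⟩
  have hN : 0 < N := hNdef ▸ Fintype.card_pos
  obtain ⟨n, hn⟩ : ∃ n, n = max n₀ N + 4 := ⟨_, rfl⟩
  have hn0 : n₀ ≤ n := by have := le_max_left n₀ N; omega
  have hnN : N + 4 ≤ n := by have := le_max_right n₀ N; omega
  obtain ⟨f⟩ : Nonempty (G ↪ Fin n) := by
    apply Function.Embedding.nonempty_of_card_le
    rw [Fintype.card_fin, ← hNdef]
    omega
  let φ : G →* Perm (Fin n) := (Perm.viaEmbeddingHom f).comp (MulAction.toPermHom G G)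
  have hφ : Function.Injective φ :=
    (Perm.viaEmbeddingHom_injective f).comp (MulAction.toPerm_injective (α := G) (β := G))
  have hφa : ∀ g x, φ g (f x) = f (g * x) := fun g x => by
    change (MulAction.toPerm g : Perm G).viaEmbedding f (f x) = f (g * x)
    rw [Perm.viaEmbedding_apply]
    rfl
  let P : Subgroup (Perm (Fin n)) := φ.range
  -- no transpositions
  have hno : ∀ a b : Fin n, a ≠ b → swap a b ∉ P := by
    rintro a b hab ⟨g, hg⟩
    have hg1 : g ≠ 1 := by
      rintro rfl
      rw [map_one] at hg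
      have := congrArg (fun σ : Perm (Fin n) => σ a) hg
      simp only [Perm.coe_one, id_eq, swap_apply_left] at this
      exact hab this
    have hmem : ∀ x : G, f x = a ∨ f x = b := by
      intro x
      by_contra hcon
      push Not at hcon
      have h1 : swap a b (f x) = f x := swap_apply_of_ne_of_ne hcon.1 hcon.2
      rw [← hg, hφa] at h1
      have h2 := f.injective h1
      exact hg1 (by simpa using h2)
    have hcomm : ∀ x y : G, Commute x y := by
      intro x y
      by_cases hx : x = 1
      · rw [hx]; exact Commute.one_left y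
      by_cases hy : y = 1
      · rw [hy]; exact Commute.one_right x
      by_cases hxy : x = y
      · rw [hxy]
      exfalso
      have e1 : f x ≠ f 1 := fun h => hx (f.injective h)
      have e2 : f y ≠ f 1 := fun h => hy (f.injective h)
      have e3 : f x ≠ f y := fun h => hxy (f.injective h)
      rcases hmem x with h1 | h1 <;> rcases hmem y with h2 | h2 <;> rcases hmem 1 with h3 | h3 <;>
        simp_all
    have hbot : commutator G = ⊥ := by
      rw [eq_bot_iff, commutator_def, Subgroup.commutator_le]
      intro x _ y _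
      rw [Subgroup.mem_bot, commutatorElement_eq_one_iff_commute]
      exact hcomm x y
    rw [hG] at hbot
    have : g ∈ (⊤ : Subgroup G) := Subgroup.mem_top g
    rw [hbot, Subgroup.mem_bot] at this
    exact hg1 this
  -- the index
  obtain ⟨m, hm⟩ : ∃ m, m = P.index := ⟨_, rfl⟩
  have hcardP : Nat.card P = N := by
    rw [hNdef, ← Nat.card_eq_fintype_card]
    exact (Nat.card_congr (MonoidHom.ofInjective hφ).toEquiv).symm
  have hmN : m * N = n.factorial := by
    have h := P.index_mul_card
    rw [hcardP, ← hm, Nat.card_eq_fintype_card, Fintype.card_perm, Fintype.card_fin] at h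
    exact h
  have h4 : 4 ∣ m := four_dvd_index hN hnN hmN
  have hm0 : 0 < m := by
    rcases Nat.eq_zero_or_pos m with h | h
    · rw [h, zero_mul] at hmN
      exact absurd hmN.symm (Nat.factorial_ne_zero n)
    · exact h
  have : Fintype (Perm (Fin n) ⧸ P) := Fintype.ofFinite _
  have hcardX : Fintype.card (Perm (Fin n) ⧸ P) = m := by
    rw [hm, Subgroup.index, Nat.card_eq_fintype_card]
  -- the sign of the action on the cosets
  let ψ : Perm (Fin n) →* ℤˣ :=
    (Perm.sign).comp (MulAction.toPermHom (Perm (Fin n)) (Perm (Fin n) ⧸ P))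
  have hswap : ∀ a b : Fin n, a ≠ b → ψ (swap a b) = 1 := by
    intro a b hab
    refine sign_involution (by rw [hcardX]; exact h4) _ ?_ ?_
    · rw [← map_pow, pow_two, swap_mul_self, map_one]
    · intro x hx
      obtain ⟨y, rfl⟩ := QuotientGroup.mk_surjective x
      have h1 : ((swap a b * y : Perm (Fin n)) : Perm (Fin n) ⧸ P) = (y : Perm (Fin n) ⧸ P) := hx
      have h2 := QuotientGroup.eq.mp h1.symm
      have h3 : y⁻¹ * (swap a b * y) = swap (y⁻¹ a) (y⁻¹ b) := by
        have h := Equiv.swap_apply_apply (y⁻¹) a b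
        rw [h, inv_inv, mul_assoc]
      rw [h3] at h2
      exact hno _ _ (fun h => hab (y⁻¹.injective h)) h2
  have hψ : ∀ γ : Perm (Fin n), ψ γ = 1 := by
    intro γ
    refine Perm.swap_induction_on γ (map_one ψ) ?_
    intro σ a b hab ih
    rw [map_mul, ih, mul_one]
    exact hswap a b hab
  refine ⟨n, P, m, hn0, ⟨(MonoidHom.ofInjective hφ).symm⟩, ?_, hm0, ?_⟩
  · obtain ⟨c, hc⟩ := h4
    exact ⟨2 * c, by omega⟩
  · let e : Fin m ≃ (Perm (Fin n) ⧸ P) := Fintype.equivOfCardEq (by rw [Fintype.card_fin, hcardX])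
    have hout : ∀ t, (((e t).out : Perm (Fin n)) : Perm (Fin n) ⧸ P) = e t := fun t =>
      QuotientGroup.out_eq' _
    refine ⟨fun t => (e t).out, ?_, ?_⟩
    · have h1 : (fun t => (((e t).out : Perm (Fin n)) : Perm (Fin n) ⧸ P)) = e := funext hout
      simp only [h1]
      exact e.bijective
    · intro γ π hπ
      have h1 : ∀ t, MulAction.toPermHom (Perm (Fin n)) (Perm (Fin n) ⧸ P) γ (e t) = e (π t) := by
        intro t
        have h := hπ t
        simp only at h
        rw [hout (π t)] at h
        rw [← h]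
        conv_lhs => rw [← hout t]
        rfl
      have h2 : π = (e.trans (MulAction.toPermHom (Perm (Fin n)) (Perm (Fin n) ⧸ P) γ)).trans e.symm := by
        ext1 t
        simp only [Equiv.trans_apply]
        rw [h1 t, Equiv.symm_apply_apply]
      rw [h2]
      have h3 := Perm.sign_trans_trans_symm (MulAction.toPermHom (Perm (Fin n)) (Perm (Fin n) ⧸ P) γ) e
      rw [h3]
      exact hψ γ

end Pool.Agent.N478.AW
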